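import Pool.Agent.Helper95.BG.Goals

/-!
# Boolean grammars: the computation inside the blocks (packet LOC)
-/

namespace Pool.Agent.Helper25.BG.PkLOC

open Pool.Agent.Helper65.LinSpace Pool.Agent.Helper78 Pool.Agent.Helper78.Mpc
  Pool.Agent.Helper78.Xor Finset Pool.Agent.Helper95.BG

theorem lor_zero_right {q x : ℕ} (hx : x < 2 ^ q) : lor q x 0 = x := by
  refine ext_bits (lor_lt _ _ _) hx fun t ht => ?_
  rw [dig_lor]
  have h0 : dig 2 0 t = 0 := by simp [dig]
  rw [h0]
  constructor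
  · rintro ⟨_, h | h⟩
    · exact h
    · omega
  · intro h
    exact ⟨ht, Or.inl h⟩

/-- three intervals which cover an interval -/
theorem orB_three {q lo hi a b c d e g : ℕ} (f : ℕ → ℕ)
    (h : ∀ k, (lo ≤ k ∧ k < hi) ↔ ((a ≤ k ∧ k < b) ∨ (c ≤ k ∧ k < d)) ∨ (e ≤ k ∧ k < g)) :
    lor q (lor q (orB q a b f) (orB q c d f)) (orB q e g f) = orB q lo hi f := by
  refine ext_bits (lor_lt _ _ _) (orB_lt _ _ _ _) fun t ht => ?_
  rw [dig_lor, dig_lor, dig_orB, dig_orB, dig_orB, dig_orB]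
  constructor
  · rintro ⟨_, ⟨_, ⟨_, k, h1, h2, h3⟩ | ⟨_, k, h1, h2, h3⟩⟩ | ⟨_, k, h1, h2, h3⟩⟩
    · obtain ⟨h4, h5⟩ := (h k).2 (Or.inl (Or.inl ⟨h1, h2⟩))
      exact ⟨ht, k, h4, h5, h3⟩
    · obtain ⟨h4, h5⟩ := (h k).2 (Or.inl (Or.inr ⟨h1, h2⟩))
      exact ⟨ht, k, h4, h5, h3⟩
    · obtain ⟨h4, h5⟩ := (h k).2 (Or.inr ⟨h1, h2⟩)
      exact ⟨ht, k, h4, h5, h3⟩
  · rintro ⟨_, k, h1, h2, h3⟩
    rcases (h k).1 ⟨h1, h2⟩ with (h4 | h4) | h4
    · exact ⟨ht, Or.inl ⟨ht, Or.inl ⟨ht, k, h4.1, h4.2, h3⟩⟩⟩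
    · exact ⟨ht, Or.inl ⟨ht, Or.inr ⟨ht, k, h4.1, h4.2, h3⟩⟩⟩
    · exact ⟨ht, Or.inr ⟨ht, k, h4.1, h4.2, h3⟩⟩

section

variable {q b : ℕ} {lt : ℕ → ℕ} {bt : ℕ → ℕ → ℕ} {ps : ℕ → ℕ}

theorem cellL_lt (hg : Good q lt bt ps) (I J DI DJ S W c : ℕ) :
    cellL q b lt bt ps I J DI DJ S W c < 2 ^ q := by
  unfold cellL ifz
  split_ifs
  · positivity
  · exact hg.2.2 _
  · exact hg.1 _

/-- One cell is correct if the cuts are. -/
theorem cell_ok {I J DI DJ S W x y lo hi : ℕ} (hy : y < b)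
    (hA : ∀ k, I * b + x + 1 ≤ k → k < min (J * b + y) ((I + 1) * b) →
      bt (dig (2 ^ q) DI (x * b + (k - I * b))) (dig (2 ^ q) W ((k - I * b) * b + y)) =
        bt (V q lt bt ps (I * b + x) k) (V q lt bt ps k (J * b + y)))
    (hS : dig (2 ^ q) S (x * b + y) = orB q lo hi fun k =>
      bt (V q lt bt ps (I * b + x) k) (V q lt bt ps k (J * b + y)))
    (hB : ∀ k, max (I * b + x + 1) (J * b) ≤ k → k < J * b + y →
      bt (dig (2 ^ q) W (x * b + (k - J * b))) (dig (2 ^ q) DJ ((k - J * b) * b + y)) =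
        bt (V q lt bt ps (I * b + x) k) (V q lt bt ps k (J * b + y)))
    (hc : I * b + x < J * b + y → ∀ k, (I * b + x + 1 ≤ k ∧ k < J * b + y) ↔
      ((I * b + x + 1 ≤ k ∧ k < min (J * b + y) ((I + 1) * b)) ∨ (lo ≤ k ∧ k < hi)) ∨
        (max (I * b + x + 1) (J * b) ≤ k ∧ k < J * b + y)) :
    cellL q b lt bt ps I J DI DJ S W (x * b + y) = V q lt bt ps (I * b + x) (J * b + y) := by
  have hcd : (x * b + y) / b = x := div_eq_block hy
  have hcm : (x * b + y) % b = y := mod_eq_block hy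
  unfold cellL
  rw [hcd, hcm, V_eq, hS]
  by_cases h1 : J * b + y ≤ I * b + x
  · rw [if_pos h1]
    have : lt01 (I * b + x) (J * b + y) = 0 := by
      unfold lt01; rw [if_neg (by omega)]
    rw [this]
    simp [ifz]
  · rw [if_neg h1]
    have h2 : lt01 (I * b + x) (J * b + y) = 1 := by
      unfold lt01; rw [if_pos (by omega)]
    rw [h2]
    by_cases h3 : J * b + y = I * b + x + 1
    · rw [if_pos h3]
      have h4 : eq01 (J * b + y) (I * b + x + 1) = 1 := by
        unfold eq01; rw [if_pos h3]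
      rw [h4]
      simp [ifz]
    · rw [if_neg h3]
      have h4 : eq01 (J * b + y) (I * b + x + 1) = 0 := by
        unfold eq01; rw [if_neg h3]
      rw [h4]
      simp only [ifz, one_ne_zero, if_false, if_true]
      congr 1
      rw [orB_congr hA, orB_congr hB]
      exact orB_three _ (hc (by omega))

/-- The loop. -/
theorem loop (hb : 0 < b) (hg : Good q lt bt ps) (I J : ℕ) (D1 D2 : ℕ → ℕ) (S : ℕ)
    (hstep : ∀ r W, (∀ x y, x < b → y < b → (b - 1 - x) + y < r →
        dig (2 ^ q) W (x * b + y) = V q lt bt ps (I * b + x) (J * b + y)) →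
      ∀ x y, x < b → y < b → (b - 1 - x) + y < r + 1 →
        cellL q b lt bt ps I J (D1 W) (D2 W) S W (x * b + y) =
          V q lt bt ps (I * b + x) (J * b + y)) :
    nrec 0 (fun _ W => stepL q b lt bt ps I J (D1 W) (D2 W) S W) (2 * b) =
      TB q b (V q lt bt ps) I J := by
  have inv : ∀ r, ∀ x y, x < b → y < b → (b - 1 - x) + y < r →
      dig (2 ^ q) (nrec 0 (fun _ W => stepL q b lt bt ps I J (D1 W) (D2 W) S W) r) (x * b + y) =
        V q lt bt ps (I * b + x) (J * b + y) := by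
    intro r
    induction r with
    | zero => intro x y _ _ h; omega
    | succ r ih =>
      intro x y hx hy h
      rw [nrec_succ]
      have hlt : x * b + y < b * b := by
        have := Nat.mul_le_mul_right b (show x + 1 ≤ b from hx)
        rw [Nat.succ_mul] at this
        omega
      unfold stepL
      rw [dig_tab (fun _ _ => cellL_lt hg _ _ _ _ _ _ _) hlt]
      exact hstep r _ ih x y hx hy h
  obtain ⟨m, hm⟩ : ∃ m, 2 * b = m + 1 := ⟨2 * b - 1, by omega⟩
  rw [hm, nrec_succ]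
  unfold stepL TB
  refine tab_congr fun c hc => ?_
  have hx : c / b < b := Nat.div_lt_of_lt_mul hc
  have hy : c % b < b := Nat.mod_lt _ hb
  have hcc : c / b * b + c % b = c := by
    rw [mul_comm]; exact Nat.div_add_mod c b
  have hrk : (b - 1 - c / b) + c % b < m + 1 := by
    generalize c / b = x at *
    generalize c % b = y at *
    omega
  have := hstep m _ (inv m) (c / b) (c % b) hx hy hrk
  rw [hcc] at this
  exact this

theorem diag_ok (hb : 0 < b) (hg : Good q lt bt ps) (I : ℕ) :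
    diagL q b lt bt ps I = TB q b (V q lt bt ps) I I := by
  unfold diagL
  refine loop hb hg I I (fun W => W) (fun W => W) 0 ?_
  intro r W ih x y hx hy hr
  have hIb : (I + 1) * b = I * b + b := by ring
  refine cell_ok (lo := 0) (hi := 0) hy ?_ ?_ ?_ ?_
  · intro k h1 h2
    rw [hIb] at h2
    have h3 : I * b + (k - I * b) = k := by omega
    rw [ih x (k - I * b) hx (by omega) (by omega), ih (k - I * b) y (by omega) hy (by omega), h3]
  · rw [orB_empty (le_refl 0)]
    simp [dig]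
  · intro k h1 h2
    have h3 : I * b + (k - I * b) = k := by omega
    rw [ih x (k - I * b) hx (by omega) (by omega), ih (k - I * b) y (by omega) hy (by omega), h3]
  · intro h k
    rw [hIb]
    omega

theorem off_ok (hb : 0 < b) (hg : Good q lt bt ps) (I J : ℕ) (hIJ : I < J) :
    offL q b lt bt ps I J (SB q b bt (V q lt bt ps) I J ((I + 1) * b) (J * b)) =
      TB q b (V q lt bt ps) I J := by
  unfold offL
  refine loop hb hg I J (fun _ => diagL q b lt bt ps I) (fun _ => diagL q b lt bt ps J) _ ?_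
  intro r W ih x y hx hy hr
  have hIb : (I + 1) * b = I * b + b := by ring
  have hJb : I * b + b ≤ J * b := by
    have := Nat.mul_le_mul_right b (show I + 1 ≤ J from hIJ)
    rw [hIb] at this
    exact this
  have hV : ∀ i j, V q lt bt ps i j < 2 ^ q := V_lt hg
  rw [diag_ok hb hg, diag_ok hb hg]
  refine cell_ok (lo := (I + 1) * b) (hi := J * b) hy ?_ ?_ ?_ ?_
  · intro k h1 h2
    rw [hIb] at h2
    have h3 : I * b + (k - I * b) = k := by omega
    rw [dig_TB hV I I hx (show k - I * b < b by omega),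
      ih (k - I * b) y (by omega) hy (by omega), h3]
  · have hlt : x * b + y < b * b := by
      have := Nat.mul_le_mul_right b (show x + 1 ≤ b from hx)
      rw [Nat.succ_mul] at this
      omega
    unfold SB
    rw [dig_tab (fun _ _ => orB_lt _ _ _ _) hlt]
    have hcd : (x * b + y) / b = x := div_eq_block hy
    have hcm : (x * b + y) % b = y := mod_eq_block hy
    rw [hcd, hcm]
  · intro k h1 h2
    have h3 : J * b + (k - J * b) = k := by omega
    rw [dig_TB hV J J (show k - J * b < b by omega) hy,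
      ih x (k - J * b) hx (by omega) (by omega), h3]
  · intro h k
    rw [hIb]
    omega

end

theorem thm : G_LOC := by
  intro q b lt bt ps hb hg
  exact ⟨fun I => diag_ok hb hg I, fun I J h => off_ok hb hg I J h⟩

end Pool.Agent.Helper25.BG.PkLOC
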